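import Pool.Agent.helper74.VN.SpecC
import Pool.Agent.helper55.VQ.SpecD

/-!
# Project VN (MP_07c750_an), row NI9: the density of the big step
-/

set_option autoImplicit false

open scoped MatrixGroups ContDiff Topology UpperHalfPlane ComplexConjugate ENNReal
open UpperHalfPlane MeasureTheory Filter Set

namespace Pool.Agent.VN

open Pool.Agent.RS Pool.Agent.VQ

/-- the dynamics for the trivial group -/
theorem NI9_bot {Γ : Subgroup SL(2, ℝ)} {k : ℝ} {B : ℕ → ℝ} {D : Dyn} (h : OKN Γ k B D) : OKN ⊥ k B D :=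
  { h with
    pot := { h.pot with
      inv := ⟨h.pot.inv.1, fun γ z => by
        have e : γ = 1 := Subsingleton.elim _ _
        rw [e, one_smul]⟩ } }

/-- large frequencies -/
theorem NI9_ev {k c y : ℝ} (hk : 0 < k) (hy : 0 < y) : ∃ R0 : ℝ, 1 ≤ R0 ∧ ∀ R : ℝ, R0 ≤ R →
    3 / 2 * R ^ (-(1 / 4) : ℝ) ≤ k ∧ 4 * c ^ 2 ≤ R ^ (1 / 10 : ℝ) ∧ 129 ≤ R ^ y := by
  have e1 : ∀ᶠ R : ℝ in atTop, R ^ (-(1 / 4) : ℝ) < k / 2 :=
    (tendsto_rpow_neg_atTop (by norm_num : (0 : ℝ) < 1 / 4)).eventually_lt_const (by positivity)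
  have e2 : ∀ᶠ R : ℝ in atTop, 4 * c ^ 2 ≤ R ^ (1 / 10 : ℝ) :=
    (tendsto_rpow_atTop (by norm_num : (0 : ℝ) < 1 / 10)).eventually_ge_atTop _
  have e3 : ∀ᶠ R : ℝ in atTop, 129 ≤ R ^ y := (tendsto_rpow_atTop hy).eventually_ge_atTop _
  obtain ⟨R0, h⟩ := Filter.eventually_atTop.1 ((e1.and e2).and e3)
  refine ⟨max R0 1, le_max_right _ _, fun R hR => ?_⟩
  obtain ⟨⟨f1, f2⟩, f3⟩ := h R ((le_max_left _ _).trans hR)
  exact ⟨by linarith, f2, f3⟩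

/-- the size of the determinant -/
theorem NI9_det {c : ℝ} (Y : Matrix (Fin 2) (Fin 2) ℂ) (h : ∀ i j, ‖Y i j‖ ≤ c) : ‖Y.det‖ ≤ 2 * c ^ 2 := by
  have h0 : 0 ≤ c := (norm_nonneg _).trans (h 0 0)
  rw [Matrix.det_fin_two]
  have e1 : ‖Y 0 0 * Y 1 1‖ ≤ c * c := by
    rw [norm_mul]
    exact mul_le_mul (h 0 0) (h 1 1) (norm_nonneg _) h0
  have e2 : ‖Y 0 1 * Y 1 0‖ ≤ c * c := by
    rw [norm_mul]
    exact mul_le_mul (h 0 1) (h 1 0) (norm_nonneg _) h0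
  have e3 := norm_sub_le (Y 0 0 * Y 1 1) (Y 0 1 * Y 1 0)
  nlinarith

/-- the final estimate -/
theorem NI9_fin {R u a d x c : ℝ} (hR : 1 ≤ R) (hu0 : 0 ≤ u) (ha : 0 ≤ a) (hd : 0 ≤ d) (hu : u ≤ 8 * R ^ 2 * a + R ^ (19 / 10 : ℝ))
    (had : a ^ 2 * d = 1) (hdc : d ≤ 2 * (c * R ^ x) ^ 2) (hx : x ≤ 1 / 20) (hc : 4 * c ^ 2 ≤ R ^ (1 / 10 : ℝ)) :
    u ^ 2 * d ≤ 129 * R ^ (4 : ℝ) := by
  have h0 : 0 < R := by linarith
  have r1 : (R ^ (19 / 10 : ℝ)) ^ 2 = R ^ (19 / 5 : ℝ) := by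
    rw [← Real.rpow_natCast (R ^ (19 / 10 : ℝ)), ← Real.rpow_mul h0.le]
    norm_num
  have r2 : (R ^ x) ^ 2 ≤ R ^ (1 / 10 : ℝ) := by
    rw [← Real.rpow_natCast (R ^ x), ← Real.rpow_mul h0.le]
    apply Real.rpow_le_rpow_of_exponent_le hR
    push_cast
    linarith
  have r3 : R ^ (19 / 5 : ℝ) * (R ^ (1 / 10 : ℝ) * R ^ (1 / 10 : ℝ)) = R ^ (4 : ℝ) := by
    rw [← Real.rpow_add h0, ← Real.rpow_add h0]
    norm_num
  have r4 : (R ^ 2) ^ 2 = R ^ (4 : ℝ) := by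
    rw [← pow_mul, ← Real.rpow_natCast]
    norm_num
  have p1 : 0 < R ^ (19 / 5 : ℝ) := Real.rpow_pos_of_pos h0 _
  have p2 : 0 < R ^ (1 / 10 : ℝ) := Real.rpow_pos_of_pos h0 _
  have p3 : 0 < R ^ (19 / 10 : ℝ) := Real.rpow_pos_of_pos h0 _
  have s1 : u ^ 2 ≤ 2 * (64 * R ^ (4 : ℝ) * a ^ 2 + R ^ (19 / 5 : ℝ)) := by
    have t1 : u ^ 2 ≤ (8 * R ^ 2 * a + R ^ (19 / 10 : ℝ)) ^ 2 := pow_le_pow_left₀ hu0 hu 2
    have t2 : (8 * R ^ 2 * a + R ^ (19 / 10 : ℝ)) ^ 2 ≤ 2 * ((8 * R ^ 2 * a) ^ 2 + (R ^ (19 / 10 : ℝ)) ^ 2) := by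
      nlinarith [sq_nonneg (8 * R ^ 2 * a - R ^ (19 / 10 : ℝ))]
    have t3 : (8 * R ^ 2 * a) ^ 2 = 64 * R ^ (4 : ℝ) * a ^ 2 := by
      rw [← r4]
      ring
    rw [t3, r1] at t2
    exact t1.trans t2
  have s2 : R ^ (19 / 5 : ℝ) * (2 * d) ≤ R ^ (4 : ℝ) := by
    rw [← r3]
    apply mul_le_mul_of_nonneg_left _ p1.le
    have t1 : 2 * d ≤ 4 * c ^ 2 * (R ^ x) ^ 2 := by
      have : 2 * (c * R ^ x) ^ 2 = 2 * (c ^ 2 * (R ^ x) ^ 2) := by ring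
      rw [this] at hdc
      linarith
    refine t1.trans ?_
    exact mul_le_mul hc r2 (sq_nonneg _) p2.le
  have s3 := mul_le_mul_of_nonneg_right s1 hd
  have s4 : 2 * (64 * R ^ (4 : ℝ) * a ^ 2 + R ^ (19 / 5 : ℝ)) * d = 128 * R ^ (4 : ℝ) * (a ^ 2 * d) + R ^ (19 / 5 : ℝ) * (2 * d) := by
    ring
  rw [s4, had] at s3
  linarith

theorem NI9_proof (hNAM : NAM_stmt) (hNYA : NYA_stmt) (hNYB : NYB_stmt) (hNUM : NUM_stmt) : NI9_stmt := by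
  intro k hk
  obtain ⟨C1, hC1, H1⟩ := hNAM k hk
  obtain ⟨C2, hC2, H2⟩ := hNUM k hk
  obtain ⟨CY, hCY, HY⟩ := hNYB k hk
  refine ⟨C1 + C2 + 20 * CY, by linarith, ?_⟩
  intro ch B A hch hA
  obtain ⟨-, hz1, hz2, he3, -, -, -⟩ := Adm_small hA (by linarith)
  have hz0 := (Adm_small hA (by linarith)).1
  obtain ⟨ζ2, R1, -, -, -, hR1, H1⟩ := H1 ch B A hch (Adm_mono hA hC1 (by linarith))
  obtain ⟨R2, hR2, H2⟩ := H2 ch B A hch (Adm_mono hA hC2 (by linarith))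
  have hzz : 0 < A.z2 := by linarith
  obtain ⟨R3, hR3, H3⟩ := NI9_ev (k := k) (c := CY) (y := (C1 + C2 + 20 * CY) * A.z2) hk (by positivity)
  have hm0 : (0 : ℝ) ≤ A.m := Nat.cast_nonneg _
  have hme : CY * (A.m * A.e3) ≤ 1 / 20 := by
    have e1 : (A.m : ℝ) * A.e3 ≤ A.m * A.z2 := mul_le_mul_of_nonneg_left (by linarith) hm0
    have e2 := hA.up
    have e3 : 0 ≤ (A.m : ℝ) * A.z2 := by positivity
    have e4 : 20 * CY * (A.m * A.e3) ≤ 20 * CY * (A.m * A.z2) := mul_le_mul_of_nonneg_left e1 (by linarith)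
    have e5 : 20 * CY * (A.m * A.z2) ≤ (C1 + C2 + 20 * CY) * (A.m * A.z2) := mul_le_mul_of_nonneg_right (by linarith) e3
    linarith
  refine ⟨max (max R1 R2) R3, hR3.trans (le_max_right _ _), ?_⟩
  intro R Γ D hR hD p q hp
  have hRa : R1 ≤ R := (le_max_left _ _).trans ((le_max_left _ _).trans hR)
  have hRb : R2 ≤ R := (le_max_right _ _).trans ((le_max_left _ _).trans hR)
  have hRc : R3 ≤ R := (le_max_right _ _).trans hR
  have h1 : 1 ≤ R := hR3.trans hRc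
  have h0 : 0 < R := by linarith
  obtain ⟨g1, g2, g3⟩ := H3 R hRc
  have hpk : |p.2| ≤ k := (abs_le.2 ⟨by linarith [hp.1], hp.2⟩ : |p.2| ≤ 3 / 2 * R ^ (-(1 / 4) : ℝ)).trans g1
  have h4 : R ^ (4 + (C1 + C2 + 20 * CY) * A.z2) = R ^ (4 : ℝ) * R ^ ((C1 + C2 + 20 * CY) * A.z2) := Real.rpow_add h0 _ _
  have p4 : 0 < R ^ (4 : ℝ) := Real.rpow_pos_of_pos h0 _
  by_cases hq : q ∈ GW 2 R
  · obtain ⟨f1, f2⟩ := H1 R Γ D p q hRa hD hp hq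
    obtain ⟨-, -, -, -, had, -, -⟩ := hNYA Γ k B D hD p.2 (A.tu R) p.1 hpk
    obtain ⟨hY, -, -, -⟩ := HY Γ B D hD p.2 (A.tu R) p.1 hpk
    have ht0 : 0 ≤ A.tu R := by
      unfold Prm.tu Prm.sg
      have := Real.log_nonneg h1
      have := hA.e3
      positivity
    have hx : Real.exp (CY * |A.tu R|) = R ^ (CY * (A.m * A.e3)) := by
      rw [abs_of_nonneg ht0, Real.rpow_def_of_pos h0]
      congr 1
      unfold Prm.tu Prm.sg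
      ring
    have hdet := NI9_det (D.Y p.2 (A.tu R) p.1) (c := CY * R ^ (CY * (A.m * A.e3))) (fun i j => by
      rw [← hx]
      exact (hY i j).1)
    have hu : ‖ub D ch A R p q‖ ≤ 8 * R ^ 2 * ‖D.a p.2 (A.tu R) p.1‖ + R ^ (19 / 10 : ℝ) := by
      have e1 := norm_le_norm_add_norm_sub' (ub D ch A R p q) (∫ z : ℍ, conj (psi D ch A.z ζ2 R (A.tu R) p z) * Gp D.U ch A.z R q z)
      linarith
    have had' : ‖D.a p.2 (A.tu R) p.1‖ ^ 2 * ‖(D.Y p.2 (A.tu R) p.1).det‖ = 1 := by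
      rw [← norm_pow, ← norm_mul, had, norm_one]
    have hfin := NI9_fin h1 (norm_nonneg (ub D ch A R p q)) (norm_nonneg _) (norm_nonneg _) hu had' hdet hme g2
    rw [h4]
    refine hfin.trans ?_
    rw [mul_comm]
    exact mul_le_mul_of_nonneg_left g3 p4.le
  · have hub : ub D ch A R p q = 0 := by
      by_contra h
      have hn := H2 R ⊥ univ D hRb (Or.inr ⟨rfl, rfl⟩) (NI9_bot hD)
      obtain ⟨-, -, -, -, hn, -, -⟩ := hn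
      exact hq (hn A.m p q h).2
    rw [hub, norm_zero]
    rw [h4]
    have : 0 < R ^ ((C1 + C2 + 20 * CY) * A.z2) := Real.rpow_pos_of_pos h0 _
    have : 0 ≤ R ^ (4 : ℝ) * R ^ ((C1 + C2 + 20 * CY) * A.z2) := by positivity
    simpa using this

end Pool.Agent.VN
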