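import Pool.Agent.helper74.VN.SpecA
import Pool.Agent.helper65.VQ.VPB

/-!
# Project VN (MP_07c750_an), row NPB: packets and beams are of class `Pk` (copy of helper65/VQ/VPB.lean)
-/

set_option autoImplicit false

open scoped MatrixGroups ContDiff Topology UpperHalfPlane ComplexConjugate ENNReal
open UpperHalfPlane MeasureTheory Filter Set

namespace Pool.Agent.VN

open Pool.Agent.RS Pool.Agent.VQ

theorem NPB_proof (hNYB : NYB_stmt) (hVSY : VQ.VSY_stmt) (hVCT : VQ.VCT_stmt) (hVBR : VQ.VBR_stmt) : NPB_stmt := by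
  intro κ hκ
  obtain ⟨CY, hCY1, hY⟩ := hNYB κ hκ
  refine ⟨CY + 16, by linarith, ?_⟩
  intro ch K e ζ ζ1 hch hRg
  obtain ⟨he0, hζ, hζζ, hCe, hCζ⟩ := hRg
  have hζ1 : 0 < ζ1 := lt_of_lt_of_le hζ hζζ
  have hζ16 : 16 * ζ1 ≤ 1 := by nlinarith
  have hYe : CY * e ≤ ζ1 := by nlinarith
  obtain ⟨CK, hCK⟩ := VPB_cal hVSY K
  obtain ⟨CX, hCX1, hX⟩ := hVCT ch K hch
  obtain ⟨RB, hRB1, hB⟩ := hVBR ch ζ hch hζ (by linarith)
  have hCK1 := hCK.one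
  have hC0 : 0 ≤ CK := by linarith
  have hX0 : 0 ≤ CX := by linarith
  have hY0 : 0 ≤ CY := by linarith
  obtain ⟨R0, hR01, hR0⟩ := VPB_R0 (((eventually_ge_atTop RB).and (VPB_ev (2 * CY * CK) ζ1 hζ1)).and
    ((VPB_ev (CX) ζ1 hζ1).and (VPB_ev (CK * CX * CK * CY) ζ1 hζ1)))
  refine ⟨R0, hR01, ?_⟩
  intro R Γ B D p t hR hD hE ht
  obtain ⟨⟨hRB, hn1⟩, hn2, hn3⟩ := hR0 R hR
  have hR1 : 1 ≤ R := hR01.trans hR
  have hRp : 0 < R := lt_of_lt_of_le one_pos hR1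
  obtain ⟨hbs, hbsup, -, -, -, -, -, hcl, hcu⟩ := hB R hRB
  have hcr0 : 0 ≤ cR ch ζ R := Real.sqrt_nonneg _
  have hpow : ∀ a : ℝ, 0 ≤ R ^ a := fun a => (Real.rpow_pos_of_pos hRp a).le
  have hC16 : ζ1 ≤ (CY + 16) * ζ1 := by nlinarith
  constructor
  · -- the packet
    obtain ⟨-, -, -, -, hb0⟩ := hX ζ R hζ.le (by linarith) hR1
    have hcd : ContDiff ℝ ∞ (fun v : ℂ => ((b0 ch ζ R v : ℝ) : ℂ)) := Complex.ofRealCLM.contDiff.comp hbs
    refine ⟨fun v => (cR ch ζ R : ℂ) * ((b0 ch ζ R v : ℝ) : ℂ), contDiff_const.mul hcd, ?_, ?_, ?_⟩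
    · intro v hv
      have h1 : b0 ch ζ R v ≠ 0 := by
        intro h
        apply hv
        change (cR ch ζ R : ℂ) * ((b0 ch ζ R v : ℝ) : ℂ) = 0
        rw [h]
        simp
      refine (hbsup v h1).trans (Real.rpow_le_rpow_of_exponent_le hR1 ?_)
      linarith
    · intro k hk v
      have h1 : VPB_Sp K (R ^ (1 / 2 : ℝ)) CX (fun v : ℂ => ((b0 ch ζ R v : ℝ) : ℂ)) v :=
        ⟨hcd.contDiffAt, fun k hk => hb0 k hk v⟩
      have h2 := VPB_Sp_cmul h1 (cR ch ζ R : ℂ) (hpow _) (m' := R ^ (3 / 2 : ℝ) * CX) (by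
        rw [Complex.norm_real, Real.norm_of_nonneg hcr0]
        exact mul_le_mul_of_nonneg_right hcu hX0)
      have h3 := VPB_Sp_mono (N' := R ^ (1 / 2 + (CY + 16) * ζ1)) (m' := R ^ (3 / 2 + (CY + 16) * ζ1)) h2 (hpow _)
        (mul_nonneg (hpow _) hX0) (Real.rpow_le_rpow_of_exponent_le hR1 (by nlinarith)) (by
          rw [Real.rpow_add hRp]
          apply mul_le_mul_of_nonneg_left _ (hpow _)
          exact hn2.trans (Real.rpow_le_rpow_of_exponent_le hR1 hC16))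
      exact h3.2 k hk
    · intro v
      push_cast
      ring
  · -- the beam
    obtain ⟨hXs, hXsup, hXb, -, -⟩ := hX ζ1 R hζ1.le (by linarith) hR1
    obtain ⟨hM, ha, hIm, -⟩ := hY Γ B D hD p.2 t p.1 hE
    have hexp : Real.exp (CY * |t|) ≤ R ^ ζ1 := VPB_exp_le hR1 hY0 hYe ht
    have hM' : ∀ i j, ‖D.M p.2 t p.1 i j‖ ≤ CY * R ^ ζ1 := fun i j =>
      (hM i j).2.2.2.trans (mul_le_mul_of_nonneg_left hexp hY0)
    have ha' : ‖D.a p.2 t p.1‖ ≤ CY * R ^ ζ1 := ha.trans (mul_le_mul_of_nonneg_left hexp hY0)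
    have hImq : ∀ v : ℂ, 0 ≤ (qf (D.M p.2 t p.1) v).im := by
      intro v
      have h1 := hIm v
      have h2 : 0 < CY * Real.exp (CY * |t|) := by positivity
      by_contra h
      push Not at h
      nlinarith [sq_nonneg ‖v‖, mul_neg_of_pos_of_neg h2 h]
    obtain ⟨hm1, hm2⟩ := VPB_num2 (R := R) (ζ1 := ζ1) hR1 hζ1.le
    have hN1 : 1 ≤ R ^ (1 / 2 : ℝ) := Real.one_le_rpow hR1 (by norm_num)
    have hL1 : 1 ≤ R ^ (4 * ζ1) := Real.one_le_rpow hR1 (by linarith)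
    set c0 : ℂ := (cR ch ζ R : ℂ) * D.a p.2 t p.1 * Complex.exp (((R * D.S p.2 t p.1 : ℝ) : ℂ) * Complex.I) with hc0
    have hc0n : ‖c0‖ ≤ R ^ (3 / 2 : ℝ) * (CY * R ^ ζ1) := VPB_const hcr0 hcu ha'
    have hin : ∀ v : ℂ, ‖v‖ ≤ R ^ (-(1 / 2) + ζ1) → VPB_Sp K (R ^ (1 / 2 + 4 * ζ1)) (R ^ (3 / 2 + 2 * ζ1))
        (fun v => c0 * (((ch (R ^ (1 - 2 * ζ1) * ‖v‖ ^ 2) : ℝ) : ℂ) * Complex.exp (VPB_psi R (D.M p.2 t p.1) v))) v := by
      intro v hv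
      have hg := VPB_Sp_gauss hCK (N := R ^ (1 / 2 : ℝ)) (m := R ^ (-(1 / 2) + ζ1)) (b := CY * R ^ ζ1) (R := R)
        (L := R ^ (4 * ζ1)) (v := v) (D.M p.2 t p.1) hN1 hv hm1 hM' hRp.le hL1 (VPB_num hR1 hn1)
      rw [hm2] at hg
      have hg' := VPB_Sp_mono (N' := R ^ (1 / 2 + 4 * ζ1)) (m' := CK) hg (hpow _) (by positivity) le_rfl (by
        have h1 : Real.exp (-(R / 2 * (qf (D.M p.2 t p.1) v).im)) ≤ 1 := by
          rw [Real.exp_le_one_iff]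
          have := mul_nonneg (by linarith : (0:ℝ) ≤ R / 2) (hImq v)
          linarith
        calc CK * Real.exp (-(R / 2 * (qf (D.M p.2 t p.1) v).im)) ≤ CK * 1 := mul_le_mul_of_nonneg_left h1 hC0
          _ = CK := mul_one _)
      have hx : VPB_Sp K (R ^ (1 / 2 : ℝ)) CX (fun w : ℂ => ((ch (R ^ (1 - 2 * ζ1) * ‖w‖ ^ 2) : ℝ) : ℂ)) v :=
        ⟨hXs.contDiffAt, fun k hk => hXb k hk v⟩
      have hNN : 1 ≤ R ^ (1 / 2 + 4 * ζ1) := Real.one_le_rpow hR1 (by linarith)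
      have hx' := VPB_Sp_mono (N' := R ^ (1 / 2 + 4 * ζ1)) (m' := CX) hx (hpow _) hX0
        (Real.rpow_le_rpow_of_exponent_le hR1 (by linarith)) le_rfl
      have hp := hCK.mul _ _ _ _ _ v hNN hX0 hC0 hx' hg'
      refine VPB_Sp_cmul hp c0 (hpow _) ?_
      calc ‖c0‖ * (CK * CX * CK) ≤ R ^ (3 / 2 : ℝ) * (CY * R ^ ζ1) * (CK * CX * CK) :=
            mul_le_mul_of_nonneg_right hc0n (by positivity)
        _ = (CK * CX * CK * CY) * (R ^ (3 / 2 : ℝ) * R ^ ζ1) := by ring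
        _ ≤ R ^ ζ1 * (R ^ (3 / 2 : ℝ) * R ^ ζ1) := mul_le_mul_of_nonneg_right hn3 (by positivity)
        _ = R ^ (3 / 2 + 2 * ζ1) := by
          rw [← Real.rpow_add hRp, ← Real.rpow_add hRp]
          congr 1
          ring
    have hout : ∀ v : ℂ, R ^ (-(1 / 2) + ζ1) < ‖v‖ →
        (fun v => c0 * (((ch (R ^ (1 - 2 * ζ1) * ‖v‖ ^ 2) : ℝ) : ℂ) * Complex.exp (VPB_psi R (D.M p.2 t p.1) v)))
          =ᶠ[𝓝 v] fun _ => 0 := by
      intro v hv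
      filter_upwards [VPB_X_out hch hR1 v hv] with w hw
      rw [hw]
      simp
    obtain ⟨hA1, hA2, hA3⟩ := VPB_glob (K := K) (N := R ^ (1 / 2 + (CY + 16) * ζ1)) (m := R ^ (3 / 2 + (CY + 16) * ζ1))
      (hpow _) (hpow _) (Real.rpow_le_rpow_of_exponent_le hR1 (by nlinarith))
      (Real.rpow_le_rpow_of_exponent_le hR1 (by nlinarith)) hout hin
    refine ⟨_, hA1, ?_, hA3, ?_⟩
    · intro v hv
      refine (hA2 v hv).trans (Real.rpow_le_rpow_of_exponent_le hR1 ?_)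
      linarith
    · intro v
      rw [VPB_pv_eq]

end Pool.Agent.VN
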