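import Pool.Agent.helper55.VN.SpecD
import Pool.Agent.helper55.VQ.EDT
import Pool.Agent.helper25.VQ.EDI
import Pool.Agent.helper44.VQ.VQA

/-!
# Project VN (MP_07c750_an), row QD1 (one small step)
-/

set_option autoImplicit false

open scoped MatrixGroups ContDiff Topology UpperHalfPlane ComplexConjugate ENNReal
open UpperHalfPlane MeasureTheory Filter Set

namespace Pool.Agent.VN

open Pool.Agent.RS Pool.Agent.VQ
open Pool.Agent.RPQ (CEig mean VV IsOp)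

noncomputable section

/-- sums on the window -/
theorem QD1_add {Γ : Subgroup SL(2, ℝ)} {F : Set ℍ} (hF : MeasurableSet F) (R : ℝ) {x y z : SL(2, ℝ) × ℝ → ℂ} (hx : FP Γ F x) (hy : FP Γ F y)
    (hz : ∀ p ∈ PW F 2 R, z p = x p + y p) : nP F 2 R z ≤ 2 * nP F 2 R x + 2 * nP F 2 R y := by
  have ix := VQA_fp hF R hx
  have iy := VQA_fp hF R hy
  have hPW : MeasurableSet (PW F 2 R) := (RS.A_GMG.1 F hF).1.prod measurableSet_Icc
  have e1 : nP F 2 R z = ∫ p in PW F 2 R, ‖x p + y p‖ ^ 2 ∂mP := by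
    unfold nP
    refine setIntegral_congr_fun hPW fun p hp => ?_
    change ‖z p‖ ^ 2 = ‖x p + y p‖ ^ 2
    rw [hz p hp]
  have e2 : 2 * nP F 2 R x + 2 * nP F 2 R y = ∫ p in PW F 2 R, (2 * ‖x p‖ ^ 2 + 2 * ‖y p‖ ^ 2) ∂mP := by
    unfold nP
    rw [integral_add (ix.const_mul 2) (iy.const_mul 2), integral_const_mul, integral_const_mul]
  rw [e1, e2]
  refine integral_mono_of_nonneg (Eventually.of_forall fun p => by positivity) ((ix.const_mul 2).add (iy.const_mul 2)) (Eventually.of_forall fun p => ?_)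
  change ‖x p + y p‖ ^ 2 ≤ 2 * ‖x p‖ ^ 2 + 2 * ‖y p‖ ^ 2
  have h1 := norm_add_le (x p) (y p)
  have h2 := pow_le_pow_left₀ (norm_nonneg _) h1 2
  nlinarith [sq_nonneg (‖x p‖ - ‖y p‖)]

/-- differences of functions on phase space -/
theorem QD1_fps {Γ : Subgroup SL(2, ℝ)} {F : Set ℍ} {x y : SL(2, ℝ) × ℝ → ℂ} (hx : FP Γ F x) (hy : FP Γ F y) : FP Γ F (fun p => x p - y p) := by
  have h := EDI_fpadd hx hy (-1)
  have e : (fun p => x p - y p) = fun q => x q + (-1) * y q := by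
    funext p
    ring
  rw [e]
  exact h

/-- equal functions on the window -/
theorem QD1_eq {F : Set ℍ} (hF : MeasurableSet F) (R : ℝ) {x y : SL(2, ℝ) × ℝ → ℂ} (h : ∀ p ∈ PW F 2 R, x p = y p) : nP F 2 R x = nP F 2 R y := by
  have hPW : MeasurableSet (PW F 2 R) := (RS.A_GMG.1 F hF).1.prod measurableSet_Icc
  unfold nP
  refine setIntegral_congr_fun hPW fun p hp => ?_
  change ‖x p‖ ^ 2 = ‖y p‖ ^ 2
  rw [h p hp]

/-- the packets of the family are continuous with compact support -/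
theorem QD1_rf {k CR : ℝ} (hNFR : ∀ (Γ : Subgroup SL(2, ℝ)) (F : Set ℍ) (B : ℕ → ℝ) (D : Dyn) (K : ℕ) (η m R t : ℝ) (f : SL(2, ℝ) × ℝ → ℂ → ℂ), Dm Γ F → OKN Γ k B D → 0 < η → η ≤ 1 / 4 → 0 ≤ m → R ^ (-(1 / 2) + η) ≤ 1 / 4 → 2 * R ^ (-(1 / 4) : ℝ) ≤ k → 1 ≤ R → FaN Γ k D K η m R t f →
  ContinuousOn (fun x : (SL(2, ℝ) × ℝ) × ℍ => pF D t f x.1 x.2) {x | |x.1.2| ≤ k} ∧ (∀ p ∈ GW 2 R, ∀ z, ‖pF D t f p z‖ ≤ m ∧ (pF D t f p z ≠ 0 → dist (D.fl p.2 t p.1 • I : ℍ) z ≤ 1 ∧ dist (p.1 • I : ℍ) z ≤ CR * |t| + 1)) ∧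
  (∀ (γ : Γ) (p : SL(2, ℝ) × ℝ) (z : ℍ), |p.2| ≤ k → pF D t f ((γ : SL(2, ℝ)) * p.1, p.2) (γ • z) = pF D t f p z) ∧
  (∀ v, FP Γ F v → FH Γ F (sF D R t f v)) ∧ (∀ φ, FH Γ F φ → FP Γ F (aF D R t f φ)) ∧
  ∀ φ v, FH Γ F φ → FP Γ F v → ∫ p in PW F 2 R, aF D R t f φ p * conj (v p) ∂mP = ∫ z in F, φ z * conj (sF D R t f v z))
    (Γ : Subgroup SL(2, ℝ)) (F : Set ℍ) (B : ℕ → ℝ) (D : Dyn) (K : ℕ) (η m R t : ℝ)
    (f : SL(2, ℝ) × ℝ → ℂ → ℂ) (hDm : Dm Γ F) (hD : OKN Γ k B D) (hη : 0 < η) (hη1 : η ≤ 1 / 4) (hm : 0 ≤ m)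
    (hR1 : R ^ (-(1 / 2) + η) ≤ 1 / 4) (hR2 : 2 * R ^ (-(1 / 4) : ℝ) ≤ k) (hR : 1 ≤ R) (hf : FaN Γ k D K η m R t f) :
    EDT_RF D R t f ∧ ∀ φ, FH Γ F φ → FP Γ F (aF D R t f φ) := by
  obtain ⟨h1, h2, -, -, h3, -⟩ := hNFR Γ F B D K η m R t f hDm hD hη hη1 hm hR1 hR2 hR hf
  refine ⟨fun p hp => ?_, h3⟩
  have hp2 : |p.2| ≤ k := by
    have := hp.2
    exact (abs_le.2 ⟨this.1, this.2⟩).trans hR2
  constructor
  · exact h1.comp_continuous (f := fun z : ℍ => (p, z)) (by fun_prop) (fun z => hp2)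
  · refine HasCompactSupport.intro (isCompact_closedBall (D.fl p.2 t p.1 • I : ℍ) 1) fun z hz => ?_
    by_contra h
    apply hz
    rw [Metric.mem_closedBall, dist_comm]
    exact ((h2 p hp z).2 h).1

theorem QD1_proof (hNTS : NTS_stmt) (hQDW : QDW_stmt) (hQDT : QDT_stmt) (hQDH : QDH_stmt) (hNSA : NSA_stmt) (hNQA : NQA_stmt) (hNQS : NQS_stmt)
    (hNFM : NFM_stmt) (hNFR : NFR_stmt) (hNUB : NUB_stmt) (hNUM : NUM_stmt) (hNTN : NTN_stmt) : QD1_stmt := by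
  intro k hk
  obtain ⟨CT, hCT1, hNTS⟩ := hNTS k hk
  obtain ⟨CW, hCW1, hQDW⟩ := hQDW k hk
  obtain ⟨CD, hCD1, hQDT⟩ := hQDT k hk
  obtain ⟨RH, -, hQDH⟩ := hQDH k hk
  obtain ⟨CS, hCS1, hNSA⟩ := hNSA k hk
  obtain ⟨CM, hCM1, hNFM⟩ := hNFM k hk
  obtain ⟨CR, -, hNFR⟩ := hNFR k hk
  obtain ⟨CB, -, hNUB⟩ := hNUB k hk
  obtain ⟨CU, hCU1, hNUM⟩ := hNUM k hk
  obtain ⟨CN, hCN1, hNTN⟩ := hNTN k hk
  refine ⟨CT + CW + CD + CS + 4 * CM + CU + CN + 8, by linarith, ?_⟩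
  intro ch B A hch hA
  set CC : ℝ := CT + CW + CD + CS + 4 * CM + CU + CN + 8 with hCC
  have hCC1 : 1 ≤ CC := by linarith
  obtain ⟨z0, z01, z12, ez, cz2, -, -⟩ := Adm_small hA hCC1
  have z1p : 0 < A.z1 := by linarith
  have z2p : 0 < A.z2 := by linarith
  have hz8 : A.z ≤ 1 / 8 := by
    have : 8 * A.z2 ≤ CC * A.z2 := mul_le_mul_of_nonneg_right (by linarith) z2p.le
    linarith
  have p1 : 0 < CM * A.z1 := by positivity
  have q4 : CM * A.z1 ≤ 1 / 4 := by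
    have e1 : 4 * CM * A.z1 ≤ CC * A.z1 := mul_le_mul_of_nonneg_right (by linarith) z1p.le
    have e2 : CC * A.z1 ≤ CC * A.z2 := mul_le_mul_of_nonneg_left z12 (by linarith)
    linarith
  have rS := (Adm_small (Adm_mono hA hCS1 (by linarith : CS ≤ CC)) hCS1).2.2.2.2.2.2
  have rM := (Adm_small (Adm_mono hA hCM1 (by linarith : CM ≤ CC)) hCM1).2.2.2.2.2.2
  obtain ⟨RT, -, hNTS⟩ := hNTS ch B A hch (Adm_mono hA hCT1 (by linarith : CT ≤ CC))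
  obtain ⟨RW, -, hQDW⟩ := hQDW ch B A hch (Adm_mono hA hCW1 (by linarith : CW ≤ CC))
  obtain ⟨RD, -, hQDT⟩ := hQDT ch B A hch (Adm_mono hA hCD1 (by linarith : CD ≤ CC))
  obtain ⟨RS, -, hNSA⟩ := hNSA ch A.e3 A.z A.z1 B hch rS
  obtain ⟨RM, -, hNFM⟩ := hNFM ch 0 A.e3 A.z A.z1 B hch rM
  obtain ⟨RU, -, hNUM⟩ := hNUM ch B A hch (Adm_mono hA hCU1 (by linarith : CU ≤ CC))
  obtain ⟨RN, -, hNTN⟩ := hNTN ch B A hch (Adm_mono hA hCN1 (by linarith : CN ≤ CC))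
  obtain ⟨RA, -, hNQA⟩ := hNQA ch A.z k hch hk z0 hz8
  obtain ⟨RQ, -, hNQS⟩ := hNQS ch A.z k hch hk z0 hz8
  have ev1 : ∀ᶠ R : ℝ in atTop, (22 : ℝ) ≤ R ^ (1 / 60 - 1 / 70 : ℝ) := (tendsto_rpow_atTop (by norm_num : (0 : ℝ) < 1 / 60 - 1 / 70)).eventually_ge_atTop _
  have ev2 : ∀ᶠ R : ℝ in atTop, (4 : ℝ) ≤ R ^ (1 / 20 : ℝ) := (tendsto_rpow_atTop (by norm_num : (0 : ℝ) < 1 / 20)).eventually_ge_atTop _
  have ev3 : ∀ᶠ R : ℝ in atTop, R ^ (-(1 / 4) : ℝ) ≤ min (1 / 16) (k / 2) := by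
    have h := tendsto_rpow_neg_atTop (by norm_num : (0 : ℝ) < 1 / 4)
    exact h.eventually (ge_mem_nhds (by positivity : (0 : ℝ) < min (1 / 16) (k / 2)))
  obtain ⟨Re, hRe⟩ := eventually_atTop.1 (ev1.and (ev2.and (ev3.and ((eventually_ge_atTop RH).and ((eventually_ge_atTop RT).and ((eventually_ge_atTop RW).and
    ((eventually_ge_atTop RD).and ((eventually_ge_atTop RS).and ((eventually_ge_atTop RM).and ((eventually_ge_atTop RU).and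
    ((eventually_ge_atTop RN).and ((eventually_ge_atTop RA).and (eventually_ge_atTop RQ)))))))))))))
  refine ⟨max 1 Re, le_max_left _ _, ?_⟩
  intro R Γ F D f F' μ φ hR hΓ hF hD hE
  have hR1 : 1 ≤ R := (le_max_left _ _).trans hR
  have hR0 : 0 < R := by linarith
  obtain ⟨n1, n2, n3, hRH, hRT, hRW, hRD, hRS, hRM, hRU, hRN, hRA, hRQ⟩ := hRe R ((le_max_right _ _).trans hR)
  have hDm : Dm Γ F := Or.inl ⟨hΓ, hF⟩
  have hPV : PV Γ k D.U := (hNUB Γ B D.U hD.pot).1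
  obtain ⟨hφ, -, -, -, -⟩ := hQDH Γ F D.U R f F' μ φ hRH hΓ hF hPV hE
  obtain ⟨hΦ, w2, w3, -, -⟩ := hQDW R Γ F D f F' μ φ hRW hΓ hF hD hE
  have hN : 0 ≤ nn F φ := integral_nonneg fun z => by positivity
  have hR2 : 2 * R ^ (-(1 / 4) : ℝ) ≤ k := by
    have := n3.trans (min_le_right _ _)
    linarith
  have hR16 : R ^ (-(1 / 4) : ℝ) ≤ 1 / 16 := n3.trans (min_le_left _ _)
  have hs0 : 0 ≤ A.sg R := mul_nonneg hA.e3.le (Real.log_nonneg hR1)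
  have hm1 : R ^ (-(1 / 2) + CM * A.z1) ≤ 1 / 4 :=
    (Real.rpow_le_rpow_of_exponent_le hR1 (by linarith : -(1 / 2) + CM * A.z1 ≤ -(1 / 4))).trans (by linarith)
  obtain ⟨fa1, -, -, pf1, -⟩ := hNFM R (A.sg R) Γ D hRM hD (abs_of_nonneg hs0).le
  obtain ⟨-, -, fa3, -, pf3⟩ := hNFM R 0 Γ D hRM hD (by
    rw [abs_zero]
    exact hs0)
  obtain ⟨rf1, fp1⟩ := QD1_rf hNFR Γ F B D 0 _ _ R (A.sg R) _ hDm hD p1 q4 (Real.rpow_nonneg hR0.le _) hm1 hR2 hR1 fa1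
  obtain ⟨rf3, -⟩ := QD1_rf hNFR Γ F B D 0 _ _ R 0 _ hDm hD p1 q4 (Real.rpow_nonneg hR0.le _) hm1 hR2 hR1 fa3
  obtain ⟨-, -, -, hQ, hS, -⟩ := hNQS R Γ F D.U hRQ hDm hPV
  obtain ⟨kz1, kz2, -, ks1, ks2, kfp, -⟩ := hNUM R Γ F D hRU hDm hD
  obtain ⟨thm, thi, -⟩ := (hNTN R Γ F D hRN hDm hD).2 f (A.sg R) hE.sm.inv
  obtain ⟨t1, t2, -, -⟩ := hNTS R Γ F D (QF D.U ch A.z R φ) hRT hDm hD hΦ
  have hW : FH Γ F (Qs D.U ch A.z R (QF D.U ch A.z R φ)) := hS _ hΦ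
  have hu := EDT_fs Γ F _ _ hW hφ
  have hfOp := kfp _ _ kz1 ks1 hΦ
  have hfPr := kfp _ _ (kz2 0) (ks2 0) hΦ
  have hsub : ∀ p ∈ PW F 2 R, p ∈ GW 2 R := fun p hp => ⟨mem_univ _, hp.2⟩
  have hpow : ∀ a : ℝ, 0 < R ^ a := fun a => Real.rpow_pos_of_pos hR0 a
  have r8 : R ^ (-8 : ℝ) ≤ R ^ (-(1 / 4) : ℝ) := Real.rpow_le_rpow_of_exponent_le hR1 (by norm_num)
  have r60 : R ^ (-(1 / 4) : ℝ) ≤ R ^ (-(1 / 60) : ℝ) := Real.rpow_le_rpow_of_exponent_le hR1 (by norm_num)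
  have n8 : R ^ (-8 : ℝ) * nP F 2 R (QF D.U ch A.z R φ) ≤ R ^ (-(1 / 4) : ℝ) * nn F φ :=
    mul_le_mul r8 w3 (integral_nonneg fun z => by positivity) (hpow _).le
  constructor
  · -- the step
    have hphase : FP Γ F (fun p => Complex.exp (((thP D f R (A.sg R) p : ℝ) : ℂ) * Complex.I) * QF D.U ch A.z R φ p) := by
      refine EDI_fpmul (h := fun p => Complex.exp (((thP D f R (A.sg R) p : ℝ) : ℂ) * Complex.I)) hΦ ?_ (fun p => ?_) (fun γ p => ?_)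
      · exact Complex.measurable_exp.comp ((Complex.measurable_ofReal.comp thm).mul_const _)
      · exact (Complex.norm_exp_ofReal_mul_I _).le
      · rw [thi γ p]
    have ha := QD1_fps hfOp (fp1 _ hW)
    have hb := fp1 _ hu
    have hc := QD1_fps (fp1 _ hφ) hphase
    have na : nP F 2 R (fun p => Op (us D ch A R) (QF D.U ch A.z R φ) p - aF D R (A.sg R) (pv D ch A.z A.z1 R (A.sg R)) (Qs D.U ch A.z R (QF D.U ch A.z R φ)) p) ≤
        R ^ (-(1 / 60) : ℝ) * nn F φ := by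
      refine le_trans (le_of_eq (QD1_eq hF.meas R fun p hp => ?_)) (t1.trans (n8.trans (mul_le_mul_of_nonneg_right r60 hN)))
      unfold aF
      rw [indicator_of_mem (hsub p hp)]
      congr 2
    have nb : nP F 2 R (aF D R (A.sg R) (pv D ch A.z A.z1 R (A.sg R)) (fun z => Qs D.U ch A.z R (QF D.U ch A.z R φ) z - φ z)) ≤ 4 * (R ^ (-(1 / 60) : ℝ) * nn F φ) := by
      refine ((hNSA R (A.sg R) Γ F D hRS hDm hD hs0 le_rfl).2 _ hu).trans ?_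
      have e1 : (1 + R ^ (-(1 / 4) : ℝ)) ^ 2 ≤ 4 := by
        have := hpow (-(1 / 4) : ℝ)
        nlinarith
      exact mul_le_mul e1 (w2.trans (mul_le_mul_of_nonneg_right r60 hN)) (integral_nonneg fun z => by positivity) (by norm_num)
    have nc := hQDT R (A.sg R) Γ F D f F' μ φ hRD hΓ hF hD hE hs0 le_rfl
    have nbc := QD1_add hF.meas R (z := fun p => aF D R (A.sg R) (pv D ch A.z A.z1 R (A.sg R)) (fun z => Qs D.U ch A.z R (QF D.U ch A.z R φ) z - φ z) p +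
      (aF D R (A.sg R) (pv D ch A.z A.z1 R (A.sg R)) φ p - Complex.exp (((thP D f R (A.sg R) p : ℝ) : ℂ) * Complex.I) * QF D.U ch A.z R φ p)) hb hc (fun p hp => rfl)
    have hbc : FP Γ F (fun p => aF D R (A.sg R) (pv D ch A.z A.z1 R (A.sg R)) (fun z => Qs D.U ch A.z R (QF D.U ch A.z R φ) z - φ z) p +
      (aF D R (A.sg R) (pv D ch A.z A.z1 R (A.sg R)) φ p - Complex.exp (((thP D f R (A.sg R) p : ℝ) : ℂ) * Complex.I) * QF D.U ch A.z R φ p)) := by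
      have h := EDI_fpadd hb hc 1
      simp only [one_mul] at h
      exact h
    have nz := QD1_add hF.meas R (z := fun p => Op (us D ch A R) (QF D.U ch A.z R φ) p - Complex.exp (((thP D f R (A.sg R) p : ℝ) : ℂ) * Complex.I) * QF D.U ch A.z R φ p)
      ha hbc (fun p hp => by
        have e := EDT_add D R (A.sg R) _ rf1 (fun z => Qs D.U ch A.z R (QF D.U ch A.z R φ) z - φ z) φ (Qs D.U ch A.z R (QF D.U ch A.z R φ)) hu.cont hφ.cont
          (fun z => by ring) p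
        rw [e]
        ring)
    refine nz.trans ?_
    have e70 : R ^ (-(1 / 70) : ℝ) = R ^ (1 / 60 - 1 / 70 : ℝ) * R ^ (-(1 / 60) : ℝ) := by
      rw [← Real.rpow_add hR0]
      norm_num
    have hX : 0 ≤ R ^ (-(1 / 60) : ℝ) * nn F φ := mul_nonneg (hpow _).le hN
    have e71 : R ^ (-(1 / 70) : ℝ) * nn F φ = R ^ (1 / 60 - 1 / 70 : ℝ) * (R ^ (-(1 / 60) : ℝ) * nn F φ) := by
      rw [e70]
      ring
    rw [e71]
    have e72 := mul_le_mul_of_nonneg_right n1 hX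
    linarith
  · -- the projection
    have hw := (hQ _ hW).2
    have ha := QD1_fps hfPr hw
    have hb := (hQ _ hu).2
    have nb : nP F 2 R (QF D.U ch A.z R (fun z => Qs D.U ch A.z R (QF D.U ch A.z R φ) z - φ z)) ≤ R ^ (-(1 / 4) : ℝ) * nn F φ :=
      (((hNQA R Γ F D.U hRA hDm hPV).1 _ hu).1).trans w2
    have nz := QD1_add hF.meas R (z := fun p => Op (pr D ch A R) (QF D.U ch A.z R φ) p - QF D.U ch A.z R φ p) ha hb (fun p hp => by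
      have e := EDT_add D R 0 _ rf3 (fun z => Qs D.U ch A.z R (QF D.U ch A.z R φ) z - φ z) φ (Qs D.U ch A.z R (QF D.U ch A.z R φ)) hu.cont hφ.cont
          (fun z => by ring) p
      have ee : ∀ u : ℍ → ℂ, aF D R 0 (fG D ch A.z R) u p = QF D.U ch A.z R u p := by
        intro u
        unfold aF QF
        rw [indicator_of_mem (hsub p hp)]
        congr 1
        funext z
        rw [pf3 p z]
      rw [ee, ee, ee] at e
      change Op (pr D ch A R) (QF D.U ch A.z R φ) p - QF D.U ch A.z R φ p = Op (pr D ch A R) (QF D.U ch A.z R φ) p - QF D.U ch A.z R (Qs D.U ch A.z R (QF D.U ch A.z R φ)) p +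
        QF D.U ch A.z R (fun z => Qs D.U ch A.z R (QF D.U ch A.z R φ) z - φ z) p
      rw [e]
      ring)
    refine nz.trans ?_
    have e5 : R ^ (-(1 / 5) : ℝ) = R ^ (1 / 20 : ℝ) * R ^ (-(1 / 4) : ℝ) := by
      rw [← Real.rpow_add hR0]
      norm_num
    have hX : 0 ≤ R ^ (-(1 / 4) : ℝ) * nn F φ := mul_nonneg (hpow _).le hN
    have e51 : R ^ (-(1 / 5) : ℝ) * nn F φ = R ^ (1 / 20 : ℝ) * (R ^ (-(1 / 4) : ℝ) * nn F φ) := by
      rw [e5]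
      ring
    rw [e51]
    have e52 := mul_le_mul_of_nonneg_right n2 hX
    have e53 := t2.trans n8
    have e55 : nP F 2 R (fun p => Op (usm D ch A R 0) (QF D.U ch A.z R φ) p - QF D.U ch A.z R (Qs D.U ch A.z R (QF D.U ch A.z R φ)) p) ≤ R ^ (-(1 / 4) : ℝ) * nn F φ := e53
    linarith

end

end Pool.Agent.VN
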